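import Mathlib
import Pool.Agent.L5helper16.LG.Defs2

/-! Project LG (helper16), lemma A6: good scales below every large `x` (helper65). -/

set_option autoImplicit false

namespace Pool.Agent.L5helper65.LG

open Filter Topology

theorem a6 : Pool.Agent.L5helper16.LG.St_A6 := by
  intro w hw hlow hlim η ε₀ hη hε₀
  obtain ⟨ε, hε, hε2, hε3⟩ : ∃ ε : ℝ, 0 < ε ∧ ε ≤ 1 / 2 ∧ ε ≤ ε₀ :=
    ⟨min ε₀ (1 / 2), lt_min hε₀ (by norm_num), min_le_right _ _, min_le_left _ _⟩
  have h1 : ∀ᶠ n : ℕ in atTop, Real.log (w n) / Real.log n < 1 :=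
    hlim.eventually (gt_mem_nhds (by norm_num))
  have hlog : Tendsto (fun n : ℕ => Real.log (n : ℝ)) atTop atTop :=
    Real.tendsto_log_atTop.comp tendsto_natCast_atTop_atTop
  obtain ⟨N, hN⟩ := (h1.and (hlow.and (hlog.eventually_ge_atTop 2))).exists_forall_of_atTop
  have hbig : ∀ n : ℕ, N ≤ n → 1 ≤ Real.log (w n) ∧ Real.log (w n) < Real.log n := by
    intro n hn
    obtain ⟨h2, h3, h4⟩ := hN n hn
    refine ⟨?_, ?_⟩
    · have h5 : (Real.exp 1) ≤ w n := by
        refine le_trans ?_ h3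
        have h6 : (2 : ℝ) ^ 7 ≤ Real.log (n : ℝ) ^ 7 := pow_le_pow_left₀ (by norm_num) h4 7
        have h7 := Real.exp_one_lt_d9
        linarith [show (2 : ℝ) ^ 7 = 128 by norm_num]
      have := Real.log_le_log (Real.exp_pos 1) h5
      rwa [Real.log_exp] at this
    · have h5 : 0 < Real.log (n : ℝ) := by linarith
      rwa [div_lt_one h5] at h2
  have t1 : Tendsto (fun j : ℕ => (j : ℝ) ^ 1 / (1 + η) ^ j) atTop (𝓝 0) :=
    tendsto_pow_const_div_const_pow_of_one_lt 1 (by linarith)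
  have t0 : Tendsto (fun j : ℕ => (j : ℝ) ^ 0 / (1 + η) ^ j) atTop (𝓝 0) :=
    tendsto_pow_const_div_const_pow_of_one_lt 0 (by linarith)
  have t2 := (t1.const_mul (2 / ε)).add (t0.const_mul (4 / ε))
  simp only [mul_zero, add_zero] at t2
  obtain ⟨M, hM⟩ := (t2.eventually (gt_mem_nhds (show (0 : ℝ) < 1 by norm_num))).exists_forall_of_atTop
  have hM' : ∀ m : ℕ, M ≤ m → 2 * (m + 2) / ε < (1 + η) ^ m := by
    intro m hm
    have h2 := hM m hm
    have hpos : (0 : ℝ) < (1 + η) ^ m := by positivity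
    have h9 : 2 / ε * ((m : ℝ) ^ 1 / (1 + η) ^ m) + 4 / ε * ((m : ℝ) ^ 0 / (1 + η) ^ m) =
        (2 * (m + 2) / ε) / (1 + η) ^ m := by
      field_simp
      ring
    rwa [h9, div_lt_one hpos] at h2
  obtain ⟨K, hK⟩ : ∃ K : ℕ, (M + 2) / ε ≤ K ∧ 2 * (N : ℝ) ≤ K := by
    obtain ⟨K, hK⟩ := exists_nat_ge (max ((M + 2) / ε) (2 * (N : ℝ)))
    exact ⟨K, (le_max_left _ _).trans hK, (le_max_right _ _).trans hK⟩
  filter_upwards [eventually_ge_atTop (4 ^ K)] with x hx
  have hx0 : x ≠ 0 := by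
    have : 0 < 4 ^ K := by positivity
    omega
  have hx1 : (1 : ℝ) ≤ x := by exact_mod_cast Nat.one_le_iff_ne_zero.2 hx0
  set L := Nat.log 4 x with hL
  have hLK : K ≤ L := Nat.le_log_of_pow_le (by norm_num) hx
  have hLx : 4 ^ L ≤ x := Nat.pow_log_le_self 4 hx0
  have hxL : x < 4 ^ (L + 1) := Nat.lt_pow_succ_log_self (by norm_num) x
  have hKL : (K : ℝ) ≤ L := by exact_mod_cast hLK
  set a := ⌈((L : ℝ) + 1) * (1 - ε)⌉₊ with ha
  have ha1 : ((L : ℝ) + 1) * (1 - ε) ≤ a := Nat.le_ceil _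
  have ha2 : (a : ℝ) < ((L : ℝ) + 1) * (1 - ε) + 1 :=
    Nat.ceil_lt_add_one (mul_nonneg (by positivity) (by linarith))
  have h3 : M + 2 ≤ ε * L := by
    have := (div_le_iff₀ hε).1 (hK.1.trans hKL)
    linarith
  have h4 : a + M ≤ L := by
    have : (a : ℝ) + M < L + 1 := by nlinarith
    exact_mod_cast Nat.lt_succ_iff.1 (by exact_mod_cast this)
  have h5 : N ≤ a := by
    have : (N : ℝ) ≤ a := by nlinarith [hK.2]
    exact_mod_cast this
  have h6 : (x : ℝ) ^ (1 - ε₀) ≤ (4 : ℝ) ^ a := by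
    calc (x : ℝ) ^ (1 - ε₀) ≤ (x : ℝ) ^ (1 - ε) :=
          Real.rpow_le_rpow_of_exponent_le hx1 (by linarith)
      _ ≤ ((4 : ℝ) ^ (L + 1)) ^ (1 - ε) := by
          refine Real.rpow_le_rpow (by linarith) ?_ (by linarith)
          exact_mod_cast hxL.le
      _ = (4 : ℝ) ^ (((L : ℝ) + 1) * (1 - ε)) := by
          rw [Real.rpow_mul (by norm_num)]
          congr 1
          rw [← Real.rpow_natCast]
          push_cast
          rfl
      _ ≤ (4 : ℝ) ^ (a : ℝ) := Real.rpow_le_rpow_of_exponent_le (by norm_num) ha1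
      _ = (4 : ℝ) ^ a := Real.rpow_natCast _ _
  by_contra hcon
  push Not at hcon
  have hrec : ∀ m : ℕ, a + m ≤ L → (1 + η) ^ m ≤ Real.log (w (4 ^ (a + m))) := by
    intro m
    induction m with
    | zero =>
      intro _
      rw [pow_zero, add_zero]
      refine (hbig _ ?_).1
      exact h5.trans (Nat.lt_pow_self (by norm_num)).le
    | succ m ih =>
      intro hm
      have h7 := ih (by omega)
      have h8 := hcon (a + m) (h6.trans (pow_le_pow_right₀ (by norm_num) (by omega)))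
        ((Nat.pow_le_pow_right (by norm_num) (by omega)).trans hLx)
      calc (1 + η) ^ (m + 1) = (1 + η) * (1 + η) ^ m := by ring
        _ ≤ (1 + η) * Real.log (w (4 ^ (a + m))) := mul_le_mul_of_nonneg_left h7 (by linarith)
        _ ≤ _ := h8.le
  have h7 := hrec (L - a) (by omega)
  have h8 := hM' (L - a) (by omega)
  have h9 : a + (L - a) = L := by omega
  rw [h9] at h7
  have h10 : N ≤ 4 ^ L := (h5.trans (by omega : a ≤ L)).trans (Nat.lt_pow_self (by norm_num)).le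
  have h11 := (hbig _ h10).2
  push_cast at h11
  rw [Real.log_pow] at h11
  have h12 : Real.log 4 ≤ 2 := by
    have h13 : Real.log 4 = 2 * Real.log 2 := by
      rw [show (4 : ℝ) = 2 ^ 2 by norm_num, Real.log_pow]; norm_num
    have := Real.log_two_lt_d9
    linarith
  have h13 : ((L - a : ℕ) : ℝ) = L - a := by
    rw [Nat.cast_sub (by omega)]
  rw [h13] at h8
  have h14 : (L : ℝ) * 2 ≤ 2 * (L - a + 2) / ε := by
    rw [le_div_iff₀ hε]
    nlinarith
  have h15 : (L : ℝ) * Real.log 4 ≤ L * 2 := mul_le_mul_of_nonneg_left h12 (by positivity)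
  linarith

end Pool.Agent.L5helper65.LG
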