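import Mathlib
import Pool.Agent.L5helper16.LG.Defs4

/-! Project LG (helper16), lemma D2: second moment with exceptions (helper65). -/

set_option autoImplicit false

namespace Pool.Agent.L5helper65.LG

open Finset MeasureTheory ProbabilityTheory Filter Topology
open Pool.Agent.L5helper16.LG

theorem d2 (b9 : St_B9) : St_D2 := by
  classical
  intro Ω _ P _ K E H hE hH d q hd0 hd1 hq0 hq1 hEH hEE s hs hsum G hG
  have hF : ∀ u ∈ K, (1 - q) * P.real (E u) ≤ P.real (E u \ H u) := by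
    intro u hu
    have h1 := measureReal_sdiff_add_inter (μ := P) (s := E u) (hH u hu)
    have h2 := hEH u hu
    linarith
  have hq : 0 < 1 - q := by linarith
  have hle : ∀ u ∈ K, P.real (E u) ≤ (1 - q)⁻¹ * P.real (E u \ H u) := by
    intro u hu
    rw [inv_mul_eq_div, le_div_iff₀ hq]
    linarith [hF u hu]
  have hsumF : 3 / 4 * s ≤ ∑ u ∈ K, P.real (E u \ H u) := by
    calc 3 / 4 * s ≤ (1 - q) * ∑ u ∈ K, P.real (E u) := by nlinarith
      _ = ∑ u ∈ K, (1 - q) * P.real (E u) := Finset.mul_sum _ _ _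
      _ ≤ _ := Finset.sum_le_sum hF
  have hq2 : (1 + d) * ((1 - q)⁻¹ * (1 - q)⁻¹) ≤ 1 + (d + 8 * q) := by
    have h1 : (1 - q)⁻¹ * (1 - q)⁻¹ ≤ 1 + 4 * q := by
      rw [← mul_inv, inv_le_comm₀ (by positivity) (by positivity), inv_le_iff_one_le_mul₀ (by positivity)]
      nlinarith [mul_nonneg hq0 hq0, mul_nonneg (mul_nonneg hq0 hq0) hq0,
        mul_nonneg hq0 (sub_nonneg.2 hq1)]
    calc (1 + d) * ((1 - q)⁻¹ * (1 - q)⁻¹) ≤ (1 + d) * (1 + 4 * q) :=
          mul_le_mul_of_nonneg_left h1 (by linarith)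
      _ ≤ _ := by nlinarith
  have hFF : ∀ u ∈ K, ∀ v ∈ K, u ≠ v → P.real ((E u \ H u) ∩ (E v \ H v)) ≤
      (1 + (d + 8 * q)) * (P.real (E u \ H u) * P.real (E v \ H v)) := by
    intro u hu v hv huv
    have h0u : 0 ≤ P.real (E u) := measureReal_nonneg
    have h0v : 0 ≤ P.real (E v) := measureReal_nonneg
    have h0u' : 0 ≤ P.real (E u \ H u) := measureReal_nonneg
    have h0v' : 0 ≤ P.real (E v \ H v) := measureReal_nonneg
    have hi : 0 < (1 - q)⁻¹ := inv_pos.2 hq
    calc P.real ((E u \ H u) ∩ (E v \ H v)) ≤ P.real (E u ∩ E v) :=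
          measureReal_mono (Set.inter_subset_inter Set.sdiff_subset Set.sdiff_subset)
      _ ≤ (1 + d) * (P.real (E u) * P.real (E v)) := hEE u hu v hv huv
      _ ≤ (1 + d) * (((1 - q)⁻¹ * P.real (E u \ H u)) * ((1 - q)⁻¹ * P.real (E v \ H v))) :=
          mul_le_mul_of_nonneg_left (mul_le_mul (hle u hu) (hle v hv) h0v (by positivity))
            (by linarith)
      _ = ((1 + d) * ((1 - q)⁻¹ * (1 - q)⁻¹)) * (P.real (E u \ H u) * P.real (E v \ H v)) := by
          ring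
      _ ≤ _ := mul_le_mul_of_nonneg_right hq2 (mul_nonneg h0u' h0v')
  have hpos : 0 < ∑ u ∈ K, P.real (E u \ H u) := by linarith
  obtain ⟨F, hFdef⟩ : ∃ F : ℕ → Set Ω, ∀ u, F u = E u \ H u := ⟨_, fun _ => rfl⟩
  have hsF : ∑ u ∈ K, P.real (F u) = ∑ u ∈ K, P.real (E u \ H u) :=
    Finset.sum_congr rfl fun u _ => by rw [hFdef]
  have h9 := b9 P K F (fun u hu => by rw [hFdef]; exact (hE u hu).diff (hH u hu)) (d + 8 * q)
    (by linarith) (by rw [hsF]; exact hpos)
    (fun u hu v hv huv => by rw [hFdef, hFdef]; exact hFF u hu v hv huv)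
  refine (measureReal_mono ?_).trans (h9.trans ?_)
  · intro ω hω
    have hω' : (G ω : ℝ) < s / 4 := hω
    refine lt_of_le_of_lt (b := (G ω : ℝ)) ?_ (by rw [hsF]; linarith)
    exact Nat.cast_le.2 (hG ω _ (Finset.filter_subset _ _)
      (fun u hu => by
        have h1 := (Finset.mem_filter.1 hu).2
        rw [hFdef] at h1
        exact h1))
  rw [hsF]
  have h3 : 1 / (∑ u ∈ K, P.real (E u \ H u)) ≤ 2 * (1 / s) := by
    rw [mul_one_div, div_le_div_iff₀ hpos hs]
    linarith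
  have h4 : 0 ≤ d + 8 * q := by linarith
  linarith

end Pool.Agent.L5helper65.LG
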